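import Pool.Agent.W467.FO.D
import Pool.Agent.W615.LOne

/-!
# Zero schemes of sections of rank two bundles: local algebra (helper467)
-/

set_option autoImplicit false
set_option maxHeartbeats 400000

open MvPolynomial H960VB H938TB Pool.Agent.W615 Pool.Agent.W467.FO

namespace Pool.Agent.W467.FX

/-- the affine cone over the zero set -/
def cone {n : ℕ} (I : Ideal (MvPolynomial (Fin (n + 1)) ℂ)) : Set (Fin (n + 1) → ℂ) :=
  {x | ∀ F ∈ I, eval x F = 0}

/-- the gradient at a point -/
noncomputable def grad {n : ℕ} (F : MvPolynomial (Fin (n + 1)) ℂ) (x : Fin (n + 1) → ℂ) :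
    Fin (n + 1) → ℂ := fun i => eval x (pderiv i F)

/-- the conormal space -/
noncomputable def conormal {n : ℕ} (I : Ideal (MvPolynomial (Fin (n + 1)) ℂ))
    (x : Fin (n + 1) → ℂ) : Submodule ℂ (Fin (n + 1) → ℂ) :=
  Submodule.span ℂ {v | ∃ F ∈ I, v = grad F x}

/-- the zero scheme of the section `s` of `E` is the nonsingular variety with ideal `I`. -/
structure ZS {n : ℕ} (E : Bundle2 n) (s : Vec E.a n)
    (I : Ideal (MvPolynomial (Fin (n + 1)) ℂ)) : Prop where
  sec : Sec E 0 s
  prime : I.IsPrime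
  mem : ∀ i, s i ∈ I
  gen : ∀ F ∈ I, ∀ x : Fin (n + 1) → ℂ, x ≠ 0 →
    ∃ h, eval x h ≠ 0 ∧ h * F ∈ Ideal.span (Set.range s)
  smooth : ∀ x ∈ cone I, x ≠ 0 → Module.finrank ℂ (conormal I x) = 2
  ne : ∃ x ∈ cone I, x ≠ 0

variable {n : ℕ} {E : Bundle2 n} {s : Vec E.a n} {I : Ideal (MvPolynomial (Fin (n + 1)) ℂ)}
variable (Z : ZS E s I) (W : Wedge (triv E))

include Z

theorem ZS.mem_of_vanish {p : MvPolynomial (Fin (n + 1)) ℂ}
    (h : ∀ x ∈ cone I, x ≠ 0 → eval x p = 0) : p ∈ I := by
  have hI := Z.prime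
  obtain ⟨x0, hx0, hne⟩ := Z.ne
  obtain ⟨i, hi⟩ : ∃ i, x0 i ≠ 0 := by
    by_contra hc
    push Not at hc
    exact hne (funext hc)
  have h1 : p * X i ∈ I := by
    rw [← IsPrime.vanishingIdeal_zeroLocus (K := ℂ) I, mem_vanishingIdeal_iff]
    intro x hx
    have hx' : x ∈ cone I := fun F hF => by
      have := hx F hF
      simpa [MvPolynomial.aeval_eq_eval] using this
    have h2 : eval x (p * X i) = 0 := by
      by_cases h0 : x = 0
      · rw [map_mul, eval_X, h0, Pi.zero_apply, mul_zero]
      · rw [map_mul, h x hx' h0, zero_mul]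
    simpa [MvPolynomial.aeval_eq_eval] using h2
  rcases hI.mem_or_mem h1 with h2 | h2
  · exact h2
  · exfalso
    have := hx0 _ h2
    rw [eval_X] at this
    exact hi this

theorem ZS.f_mem {G : Vec E.a n} (hG : Ker E G) : W.wd s G ∈ I := by
  obtain ⟨x0, hx0, hne⟩ := Z.ne
  obtain ⟨i, j, hij⟩ := W.P_ne x0 hne
  have h1 : W.wd s G * W.P i j ∈ I := by
    rw [← W.eq s G Z.sec.ker hG i j]
    exact I.sub_mem (I.mul_mem_right _ (Z.mem i)) (I.mul_mem_right _ (Z.mem j))
  rcases Z.prime.mem_or_mem h1 with h2 | h2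
  · exact h2
  · exact absurd (hx0 _ h2) hij

theorem ZS.s_zero {x : Fin (n + 1) → ℂ} (hx : x ∈ cone I) : evv s x = 0 := by
  funext i
  exact hx _ (Z.mem i)

theorem ZS.mem_cone {x : Fin (n + 1) → ℂ} (hx0 : x ≠ 0) (h : evv s x = 0) : x ∈ cone I := by
  intro F hF
  obtain ⟨h', hh, hm⟩ := Z.gen F hF x hx0
  have h1 : Ideal.span (Set.range s) ≤ RingHom.ker (eval x) := by
    rw [Ideal.span_le]
    rintro _ ⟨i, rfl⟩
    exact congrFun h i
  have h2 : eval x (h' * F) = 0 := h1 hm
  rw [map_mul] at h2
  exact (mul_eq_zero.1 h2).resolve_left hh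

/-- local generation by two elements -/
theorem ZS.locgen {G H : Vec E.a n} (hG : Ker E G) (hH : Ker E H) {x : Fin (n + 1) → ℂ}
    (hx0 : x ≠ 0) (hw : eval x (W.wd G H) ≠ 0) {F : MvPolynomial (Fin (n + 1)) ℂ} (hF : F ∈ I) :
    ∃ h A B : MvPolynomial (Fin (n + 1)) ℂ, eval x h ≠ 0 ∧
      h * F = A * W.wd s G + B * W.wd s H := by
  obtain ⟨h', hh, hm⟩ := Z.gen F hF x hx0
  rw [Ideal.mem_span_range_iff_exists_fun] at hm
  obtain ⟨c, hc⟩ := hm
  refine ⟨h' * W.wd G H, -∑ i, c i * H i, ∑ i, c i * G i, ?_, ?_⟩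
  · rw [map_mul]
    exact mul_ne_zero hh hw
  · have h1 : ∀ i, W.wd G H * s i = W.wd s H * G i - W.wd s G * H i := by
      intro i
      have h2 := W.three s G H Z.sec.ker hG hH i
      linear_combination h2
    calc h' * W.wd G H * F = W.wd G H * (h' * F) := by ring
      _ = ∑ i, c i * (W.wd G H * s i) := by
        rw [← hc, Finset.mul_sum]
        exact Finset.sum_congr rfl fun i _ => by ring
      _ = ∑ i, c i * (W.wd s H * G i - W.wd s G * H i) :=
        Finset.sum_congr rfl fun i _ => by rw [h1]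
      _ = W.wd s H * ∑ i, c i * G i - W.wd s G * ∑ i, c i * H i := by
        rw [Finset.mul_sum, Finset.mul_sum, ← Finset.sum_sub_distrib]
        exact Finset.sum_congr rfl fun i _ => by ring
      _ = _ := by ring

omit Z in
theorem grad_mul_of_zero {F G : MvPolynomial (Fin (n + 1)) ℂ} {x : Fin (n + 1) → ℂ}
    (h : eval x G = 0) (i : Fin (n + 1)) : grad (F * G) x i = eval x F * grad G x i := by
  unfold grad
  rw [Derivation.leibniz, smul_eq_mul, smul_eq_mul, map_add, map_mul, map_mul, h, zero_mul,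
    add_zero]

omit Z in
theorem grad_add (F G : MvPolynomial (Fin (n + 1)) ℂ) (x : Fin (n + 1) → ℂ) (i : Fin (n + 1)) :
    grad (F + G) x i = grad F x i + grad G x i := by
  unfold grad
  rw [map_add, map_add]

omit Z in
theorem grad_sub (F G : MvPolynomial (Fin (n + 1)) ℂ) (x : Fin (n + 1) → ℂ) (i : Fin (n + 1)) :
    grad (F - G) x i = grad F x i - grad G x i := by
  unfold grad
  rw [map_sub, map_sub]

/-- gradients of elements of the ideal -/
theorem ZS.grad_gen {G H : Vec E.a n} (hG : Ker E G) (hH : Ker E H) {x : Fin (n + 1) → ℂ}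
    (hx : x ∈ cone I) (hx0 : x ≠ 0) (hw : eval x (W.wd G H) ≠ 0)
    {F : MvPolynomial (Fin (n + 1)) ℂ} (hF : F ∈ I) :
    ∃ a b : ℂ, ∀ i, grad F x i = a * grad (W.wd s G) x i + b * grad (W.wd s H) x i := by
  obtain ⟨h, A, B, hh, he⟩ := Z.locgen W hG hH hx0 hw hF
  refine ⟨eval x A / eval x h, eval x B / eval x h, fun i => ?_⟩
  have h1 := congrArg (fun p => grad p x i) he
  simp only [grad_add] at h1
  rw [grad_mul_of_zero (hx F hF), grad_mul_of_zero (hx _ (Z.f_mem W hG)),
    grad_mul_of_zero (hx _ (Z.f_mem W hH))] at h1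
  field_simp
  linear_combination h1

/-- the two by two minors of the gradients -/
noncomputable def Lam (F G : MvPolynomial (Fin (n + 1)) ℂ) (i j : Fin (n + 1)) :
    MvPolynomial (Fin (n + 1)) ℂ := pderiv i F * pderiv j G - pderiv j F * pderiv i G

omit Z in
theorem eval_Lam (F G : MvPolynomial (Fin (n + 1)) ℂ) (i j : Fin (n + 1))
    (x : Fin (n + 1) → ℂ) :
    eval x (Lam F G i j) = grad F x i * grad G x j - grad F x j * grad G x i := by
  unfold Lam grad
  rw [map_sub, map_mul, map_mul]

omit Z in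
theorem sing_le (v : Fin (n + 1) → ℂ) :
    Module.finrank ℂ (Submodule.span ℂ ({v} : Set (Fin (n + 1) → ℂ))) ≤ 1 := by
  refine le_trans (finrank_span_le_card _) ?_
  simp

/-- independence of the gradients -/
theorem ZS.exists_minor {G H : Vec E.a n} (hG : Ker E G) (hH : Ker E H) {x : Fin (n + 1) → ℂ}
    (hx : x ∈ cone I) (hx0 : x ≠ 0) (hw : eval x (W.wd G H) ≠ 0) :
    ∃ i j, eval x (Lam (W.wd s G) (W.wd s H) i j) ≠ 0 := by
  by_contra hc
  push Not at hc
  simp only [eval_Lam] at hc
  set v := grad (W.wd s G) x with hv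
  set w := grad (W.wd s H) x with hw'
  have h2 := Z.smooth x hx hx0
  have hle : conormal I x ≤ Submodule.span ℂ {v, w} := by
    unfold conormal
    rw [Submodule.span_le]
    rintro _ ⟨F, hF, rfl⟩
    obtain ⟨a, b, hab⟩ := Z.grad_gen W hG hH hx hx0 hw hF
    have h3 : grad F x = a • v + b • w := by
      funext i
      rw [hab i]
      rfl
    rw [h3]
    exact Submodule.add_mem _ (Submodule.smul_mem _ _ (Submodule.subset_span (Or.inl rfl)))
      (Submodule.smul_mem _ _ (Submodule.subset_span (Or.inr rfl)))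
  have h3 : Module.finrank ℂ (Submodule.span ℂ {v, w}) ≤ 1 := by
    by_cases hv0 : v = 0
    · have h4 : Submodule.span ℂ {v, w} ≤ Submodule.span ℂ {w} := by
        rw [Submodule.span_le]
        rintro u (rfl | hu)
        · rw [hv0]; exact Submodule.zero_mem _
        · rw [hu]; exact Submodule.subset_span rfl
      exact le_trans (Submodule.finrank_mono h4) (sing_le w)
    · obtain ⟨k, hk⟩ : ∃ k, v k ≠ 0 := by
        by_contra hcc
        push Not at hcc
        exact hv0 (funext hcc)
      have h4 : Submodule.span ℂ {v, w} ≤ Submodule.span ℂ {v} := by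
        rw [Submodule.span_le]
        rintro u (rfl | hu)
        · exact Submodule.subset_span rfl
        · rw [hu]
          have h5 : w = (w k / v k) • v := by
            funext i
            have h6 := hc k i
            rw [Pi.smul_apply, smul_eq_mul]
            field_simp
            linear_combination h6
          rw [h5]
          exact Submodule.smul_mem _ _ (Submodule.subset_span rfl)
      exact le_trans (Submodule.finrank_mono h4) (sing_le v)
  have h4 := le_trans (Submodule.finrank_mono hle) h3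
  omega

/-- proportionality of the minors -/
theorem ZS.cross {G H G' H' : Vec E.a n} (hG : Ker E G) (hH : Ker E H) (hG' : Ker E G')
    (hH' : Ker E H') {x : Fin (n + 1) → ℂ} (hx : x ∈ cone I) (i j : Fin (n + 1)) :
    eval x (Lam (W.wd s G') (W.wd s H') i j) * eval x (W.wd G H) =
      eval x (Lam (W.wd s G) (W.wd s H) i j) * eval x (W.wd G' H') := by
  have key : ∀ {G H G' H' : Vec E.a n}, Ker E G → Ker E H → Ker E G' → Ker E H' →
      eval x (W.wd G H) ^ 2 * eval x (Lam (W.wd s G') (W.wd s H') i j) =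
      eval x (W.wd G H) * eval x (W.wd G' H') * eval x (Lam (W.wd s G) (W.wd s H) i j) := by
    intro G H G' H' hG hH hG' hH'
    have hz : ∀ {K : Vec E.a n}, Ker E K → eval x (W.wd s K) = 0 := fun hK =>
      hx _ (Z.f_mem W hK)
    have three : ∀ {K : Vec E.a n}, Ker E K → ∀ k, eval x (W.wd G H) * grad (W.wd s K) x k =
        eval x (W.wd K H) * grad (W.wd s G) x k - eval x (W.wd K G) * grad (W.wd s H) x k := by
      intro K hK k
      have h1 : W.wd G H * W.wd s K = W.wd K H * W.wd s G - W.wd K G * W.wd s H := by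
        refine wd_lin W Z.sec.ker hG hH hK fun i => ?_
        have h2 := W.three K G H hK hG hH i
        linear_combination h2
      have h2 := congrArg (fun p => grad p x k) h1
      simp only [grad_sub] at h2
      rw [grad_mul_of_zero (hz hK), grad_mul_of_zero (hz hG), grad_mul_of_zero (hz hH)] at h2
      exact h2
    have a1 := three hG' i
    have a2 := three hG' j
    have b1 := three hH' i
    have b2 := three hH' j
    have f := congrArg (eval x) (W.four G H G' H' hG hH hG' hH')
    have c1 := congrArg (eval x) (W.anti G G' hG hG')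
    have c2 := congrArg (eval x) (W.anti H H' hH hH')
    have c3 := congrArg (eval x) (W.anti G H' hG hH')
    have c4 := congrArg (eval x) (W.anti H G' hH hG')
    simp only [map_add, map_sub, map_mul, map_neg, map_zero] at f c1 c2 c3 c4
    rw [c1, c2, c3, c4] at f
    rw [eval_Lam, eval_Lam]
    linear_combination (eval x (W.wd G H) * grad (W.wd s H') x j) * a1
      + (eval x (W.wd G' H) * grad (W.wd s G) x i - eval x (W.wd G' G) * grad (W.wd s H) x i) * b2
      - (eval x (W.wd G H) * grad (W.wd s H') x i) * a2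
      - (eval x (W.wd G' H) * grad (W.wd s G) x j - eval x (W.wd G' G) * grad (W.wd s H) x j) * b1
      - (grad (W.wd s G) x i * grad (W.wd s H) x j - grad (W.wd s G) x j * grad (W.wd s H) x i) * f
  by_cases h0 : eval x (W.wd G H) = 0
  · by_cases h1 : eval x (W.wd G' H') = 0
    · rw [h0, h1, mul_zero, mul_zero]
    · have h2 := key hG' hH' hG hH
      rw [h0, mul_zero, zero_mul] at h2
      have h3 := (mul_eq_zero.1 h2).resolve_left (pow_ne_zero _ h1)
      rw [h0, h3, mul_zero, zero_mul]
  · apply mul_left_cancel₀ h0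
    have h2 := key hG hH hG' hH'
    linear_combination h2

end Pool.Agent.W467.FX
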